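import Pool.Agent.H177Z.DelJordan

set_option autoImplicit false

namespace Pool.Agent.Results.MP_e6a378_co.AJordanConstant

/-- the orthogonal group of the Euclidean space `E` -/
abbrev Orth (E : Type) [NormedAddCommGroup E] [InnerProductSpace ℝ E] : Type := E ≃ₗᵢ[ℝ] E

/-- every finite subgroup of `G` has a commutative subgroup of index at most `J` -/
def JordanBound (G : Type) [Group G] (J : ℕ) : Prop :=
  ∀ H : Subgroup G, Finite H → ∃ A ≤ H, (∀ a ∈ A, ∀ b ∈ A, a * b = b * a) ∧ A.relIndex H ≤ J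

/-- **The regularity radius is bounded by the logarithm of the Jordan constant.**  Let `E` be a
Euclidean space of dimension `d`.  If every finite subgroup of the orthogonal group of `E` has a
commutative subgroup of index at most `J`, then every Delone set in `E` with covering radius at most
`R` whose clusters of some radius `ρ ≥ (17 d + 3 log₂ J + 10) R` are pairwise congruent is a regular
system. -/
theorem result (E : Type) [NormedAddCommGroup E] [InnerProductSpace ℝ E] [FiniteDimensional ℝ E]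
    (J : ℕ) (hJ : JordanBound (Orth E) J) (R : ℝ) (hR : 0 < R) (ρ : ℝ)
    (hρ : (17 * (Module.finrank ℝ E : ℝ) + 3 * Real.logb 2 J + 10) * R ≤ ρ) (X : Set E)
    (hsep : ∃ r : ℝ, 0 < r ∧ ∀ x ∈ X, ∀ y ∈ X, x ≠ y → r ≤ dist x y)
    (hcov : ∀ z : E, ∃ x ∈ X, dist z x ≤ R)
    (hiso : ∀ x ∈ X, ∀ y ∈ X, ∃ g : E ≃ᵢ E,
      g x = y ∧ g '' (X ∩ Metric.closedBall x ρ) = X ∩ Metric.closedBall y ρ) :
    ∀ x ∈ X, ∀ y ∈ X, ∃ g : E ≃ᵢ E, g x = y ∧ g '' X = X := by
  obtain ⟨r, hr, hsep⟩ := hsep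
  refine Pool.Agent.H177Z.Del.regular_jordan (J := J) (ρ := ρ) ?_ hR hr hcov hsep hρ ?_
  · intro H hH
    obtain ⟨A, h1, h2, h3⟩ := hJ H hH
    refine ⟨A, h1, h2, ?_⟩
    have h4 := (A.subgroupOf H).index_mul_card
    rw [Nat.card_congr (Subgroup.subgroupOfEquivOfLe h1).toEquiv] at h4
    rw [← h4]
    exact Nat.mul_le_mul_right _ h3
  · intro x hx y hy
    obtain ⟨g, h1, h2⟩ := hiso x hx y hy
    exact ⟨g, h1, Pool.Agent.H177Z.Del.loc_of_image h1 h2⟩

end Pool.Agent.Results.MP_e6a378_co.AJordanConstant
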