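import Pool.Agent.H177Z.DelMain

set_option autoImplicit false

/-- **The regularity radius is `O(d²) R`, independently of `r`.**  Every Delone set in `ℝ^d` with
covering radius at most `R` whose clusters of some radius `ρ ≥ (9 d² + 8 d + 10) R` are pairwise
congruent is a regular system. -/
theorem Pool.Agent.Results.MP_e6a378_co.Quadratic.result (d : ℕ)
    (R : ℝ) (hR : 0 < R) (ρ : ℝ) (hρ : (9 * (d : ℝ) ^ 2 + 8 * d + 10) * R ≤ ρ)
    (X : Set (EuclideanSpace ℝ (Fin d)))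
    (hsep : ∃ r : ℝ, 0 < r ∧ ∀ x ∈ X, ∀ y ∈ X, x ≠ y → r ≤ dist x y)
    (hcov : ∀ z : EuclideanSpace ℝ (Fin d), ∃ x ∈ X, dist z x ≤ R)
    (hiso : ∀ x ∈ X, ∀ y ∈ X, ∃ g : EuclideanSpace ℝ (Fin d) ≃ᵢ EuclideanSpace ℝ (Fin d),
      g x = y ∧ g '' (X ∩ Metric.closedBall x ρ) = X ∩ Metric.closedBall y ρ) :
    ∀ x ∈ X, ∀ y ∈ X, ∃ g : EuclideanSpace ℝ (Fin d) ≃ᵢ EuclideanSpace ℝ (Fin d),
      g x = y ∧ g '' X = X := by
  obtain ⟨r, hr, hsep⟩ := hsep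
  refine Pool.Agent.H177Z.Del.regular (ρ := ρ) hR hr hcov hsep ?_ ?_
  · rw [finrank_euclideanSpace_fin]
    exact hρ
  · intro x hx y hy
    obtain ⟨g, h1, h2⟩ := hiso x hx y hy
    exact ⟨g, h1, Pool.Agent.H177Z.Del.loc_of_image h1 h2⟩
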